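import Mathlib

set_option autoImplicit false
set_option linter.unusedSectionVars false

/-!
# Union-closed families generated by pseudorandom systems of sets

`I` indexes `N` subsets `g i` of an `n`-element set `V`.  We assume the one-sided discrepancy
condition `e(S, W) ≥ p |S| |W| - b √(|S| |W|)` for all `S ⊆ I`, `W ⊆ V`, where `e(S, W)` is the
number of incidences, and `∑ |g i| ≤ p N n`.  Small unions of the `g i` are encoded by a short list of
generators together with a subset of a small set of candidates; many large unions arise as the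
unions of all the generators that avoid a random list of points.
-/

namespace Pool.Agent.U475.PR

open Finset

variable {ι α : Type*} [DecidableEq ι] [DecidableEq α]

/-- The one-sided discrepancy condition. -/
def LowDisc (I : Finset ι) (V : Finset α) (g : ι → Finset α) (p b : ℝ) : Prop :=
  ∀ S ⊆ I, ∀ W ⊆ V,
    p * S.card * W.card - b * √((S.card : ℝ) * W.card) ≤ ((∑ i ∈ S, (g i ∩ W).card : ℕ) : ℝ)

theorem LowDisc.mono {I : Finset ι} {V : Finset α} {g : ι → Finset α} {p b b' : ℝ}
    (h : LowDisc I V g p b) (hb : b ≤ b') : LowDisc I V g p b' := by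
  intro S hS W hW
  refine le_trans ?_ (h S hS W hW)
  have : b * √((S.card : ℝ) * W.card) ≤ b' * √((S.card : ℝ) * W.card) :=
    mul_le_mul_of_nonneg_right hb (Real.sqrt_nonneg _)
  linarith

/-- The generated family. -/
def gen (I : Finset ι) (g : ι → Finset α) : Finset (Finset α) :=
  I.powerset.image (fun S => S.biUnion g)

theorem mem_gen {I : Finset ι} {g : ι → Finset α} {U : Finset α} :
    U ∈ gen I g ↔ ∃ S ⊆ I, S.biUnion g = U := by
  simp [gen]

/-- no incidences between `S` and `W` force `|S| |W| ≤ b² / p²` -/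
theorem no_inc {I : Finset ι} {V : Finset α} {g : ι → Finset α} {p b : ℝ} (hp : 0 < p)
    (h : LowDisc I V g p b) {S : Finset ι} (hS : S ⊆ I) {W : Finset α} (hW : W ⊆ V)
    (h0 : ∀ i ∈ S, ∀ x ∈ W, x ∉ g i) : p ^ 2 * ((S.card : ℝ) * W.card) ≤ b ^ 2 := by
  have h1 := h S hS W hW
  have h2 : (∑ i ∈ S, (g i ∩ W).card) = 0 := by
    apply sum_eq_zero
    intro i hi
    rw [card_eq_zero, ← disjoint_iff_inter_eq_empty, disjoint_left]
    intro x hx hxW
    exact h0 i hi x hxW hx
  rw [h2, Nat.cast_zero] at h1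
  obtain ⟨z, hz⟩ : ∃ z : ℝ, z = (S.card : ℝ) * W.card := ⟨_, rfl⟩
  have hz0 : 0 ≤ z := by rw [hz]; positivity
  rw [mul_assoc, ← hz] at h1
  rw [← hz]
  have hs := Real.sq_sqrt hz0
  have hs0 := Real.sqrt_nonneg z
  obtain ⟨s, hsdef⟩ : ∃ s : ℝ, s = √z := ⟨_, rfl⟩
  rw [← hsdef] at h1 hs hs0
  rw [← hs] at h1 ⊢
  -- p s^2 ≤ b s
  rcases hs0.eq_or_lt with h3 | h3
  · rw [← h3]; nlinarith [sq_nonneg b]
  · have h4 : p * s ≤ b := by
      by_contra hcon
      push Not at hcon
      nlinarith
    have h5 : 0 ≤ p * s := by positivity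
    nlinarith

/-- the set of candidates: few new points -/
noncomputable def cand (I : Finset ι) (g : ι → Finset α) (θ : ℝ) (T : Finset ι) : Finset ι :=
  I.filter (fun i => ((g i \ T.biUnion g).card : ℝ) ≤ θ)

theorem cand_card {I : Finset ι} {V : Finset α} {g : ι → Finset α} {p b : ℝ} (hp : 0 < p)
    (h : LowDisc I V g p b) {T : Finset ι}
    (h2 : 2 * (T.biUnion g).card ≤ V.card) :
    p ^ 2 * V.card * ((cand I g (p * V.card / 4) T).card : ℝ) ≤ 8 * b ^ 2 := by
  obtain ⟨H, hH⟩ : ∃ H, H = cand I g (p * V.card / 4) T := ⟨_, rfl⟩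
  rw [← hH]
  have hHI : H ⊆ I := by rw [hH]; exact filter_subset _ _
  obtain ⟨X, hX⟩ : ∃ X, X = T.biUnion g := ⟨_, rfl⟩
  rw [← hX] at h2
  obtain ⟨Y, hY⟩ : ∃ Y, Y = V \ X := ⟨_, rfl⟩
  have hYV : Y ⊆ V := by rw [hY]; exact sdiff_subset
  have hYc : (V.card : ℝ) ≤ 2 * Y.card := by
    have h3 : V.card ≤ Y.card + X.card := by
      rw [hY]
      have := card_le_card_sdiff_add_card (s := V) (t := X)
      omega
    have h4 : V.card ≤ 2 * Y.card := by omega
    exact_mod_cast h4
  have h5 := h H hHI Y hYV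
  have h6 : ((∑ i ∈ H, (g i ∩ Y).card : ℕ) : ℝ) ≤ H.card * (p * V.card / 4) := by
    rw [Nat.cast_sum, ← nsmul_eq_mul]
    apply sum_le_card_nsmul
    intro i hi
    rw [hH, cand, mem_filter] at hi
    refine le_trans ?_ hi.2
    rw [← hX]
    have : g i ∩ Y ⊆ g i \ X := by
      intro x hx
      rw [mem_inter, hY, mem_sdiff] at hx
      rw [mem_sdiff]
      exact ⟨hx.1, hx.2.2⟩
    exact_mod_cast card_le_card this
  have hHn : (0 : ℝ) ≤ H.card := by positivity
  have hYn : (0 : ℝ) ≤ Y.card := by positivity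
  have hVn : (0 : ℝ) ≤ V.card := by positivity
  have hs := Real.sq_sqrt (mul_nonneg hHn hYn)
  have hs0 := Real.sqrt_nonneg ((H.card : ℝ) * Y.card)
  obtain ⟨s, hsdef⟩ : ∃ s : ℝ, s = √((H.card : ℝ) * Y.card) := ⟨_, rfl⟩
  rw [← hsdef] at h5 hs hs0
  obtain ⟨k, hk⟩ : ∃ k : ℝ, k = (H.card : ℝ) := ⟨_, rfl⟩
  obtain ⟨y, hy⟩ : ∃ y : ℝ, y = (Y.card : ℝ) := ⟨_, rfl⟩
  obtain ⟨n, hn⟩ : ∃ n : ℝ, n = (V.card : ℝ) := ⟨_, rfl⟩
  rw [← hk, ← hy] at hs
  rw [← hk, ← hn] at h6 ⊢
  rw [← hk, ← hy] at h5
  rw [← hn, ← hy] at hYc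
  rw [← hk] at hHn
  rw [← hy] at hYn
  rw [← hn] at hVn
  have h7 : p * k * (y - n / 4) ≤ b * s := by linarith
  have h8 : 0 ≤ p * k * (y - n / 4) := by
    have : 0 ≤ y - n / 4 := by linarith
    positivity
  have h9 : (p * k * (y - n / 4)) ^ 2 ≤ (b * s) ^ 2 := by
    exact pow_le_pow_left₀ h8 h7 2
  rw [mul_pow b s, hs] at h9
  -- p^2 k^2 (y-n/4)^2 ≤ b^2 k y
  have h10 : y * n / 8 ≤ (y - n / 4) ^ 2 := by nlinarith
  rcases hHn.eq_or_lt with h11 | h11
  · rw [← h11]; nlinarith [sq_nonneg b]
  rcases hYn.eq_or_lt with h12 | h12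
  · have : n = 0 := by linarith
    rw [this]; nlinarith [sq_nonneg b]
  have h13 : p ^ 2 * k ^ 2 * (y * n / 8) ≤ b ^ 2 * (k * y) := by
    calc p ^ 2 * k ^ 2 * (y * n / 8) ≤ p ^ 2 * k ^ 2 * (y - n / 4) ^ 2 := by
          apply mul_le_mul_of_nonneg_left h10; positivity
      _ = (p * k * (y - n / 4)) ^ 2 := by ring
      _ ≤ b ^ 2 * (k * y) := h9
  have h14 : (k * y) * (p ^ 2 * n * k) ≤ (k * y) * (8 * b ^ 2) := by nlinarith
  exact le_of_mul_le_mul_left h14 (by positivity)

/-- the short lists -/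
noncomputable def lists (I : Finset ι) (V : Finset α) (g : ι → Finset α) (p : ℝ) :
    Finset (Finset ι) :=
  I.powerset.filter (fun T => (T.card : ℝ) * (p * V.card / 4) ≤ (T.biUnion g).card ∧
    2 * (T.biUnion g).card ≤ V.card)

/-- every small member is encoded by a short list and a set of candidates -/
theorem encode {I : Finset ι} {V : Finset α} {g : ι → Finset α} {p : ℝ} {U : Finset α}
    (hU : U ∈ gen I g) (h2 : 2 * U.card ≤ V.card) :
    ∃ T ∈ lists I V g p, ∃ R ∈ (cand I g (p * V.card / 4) T).powerset,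
      (T ∪ R).biUnion g = U := by
  obtain ⟨S, hSI, hSU⟩ := mem_gen.mp hU
  obtain ⟨θ, hθ⟩ : ∃ θ : ℝ, θ = p * V.card / 4 := ⟨_, rfl⟩
  -- choose a maximal T
  have hne : (S.powerset.filter
      (fun T => (T.card : ℝ) * θ ≤ (T.biUnion g).card)).Nonempty :=
    ⟨∅, by simp⟩
  obtain ⟨T, hT, hmax⟩ := exists_max_image _ (fun T => T.card) hne
  rw [mem_filter, mem_powerset] at hT
  have hTU : T.biUnion g ⊆ U := by
    rw [← hSU]; exact biUnion_subset_biUnion_of_subset_left g hT.1
  refine ⟨T, ?_, S \ T, ?_, ?_⟩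
  · rw [lists, mem_filter, mem_powerset, ← hθ]
    refine ⟨hT.1.trans hSI, hT.2, ?_⟩
    have := card_le_card hTU
    omega
  · rw [mem_powerset]
    intro i hi
    rw [mem_sdiff] at hi
    rw [cand, mem_filter, ← hθ]
    refine ⟨hSI hi.1, ?_⟩
    by_contra hcon
    push Not at hcon
    have h3 : insert i T ∈ S.powerset.filter
        (fun T => (T.card : ℝ) * θ ≤ (T.biUnion g).card) := by
      rw [mem_filter, mem_powerset]
      refine ⟨insert_subset hi.1 hT.1, ?_⟩
      rw [card_insert_of_notMem hi.2, biUnion_insert, ← sdiff_union_self_eq_union,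
        card_union_of_disjoint sdiff_disjoint]
      push_cast
      nlinarith [hT.2]
    have h4 := hmax _ h3
    simp only [card_insert_of_notMem hi.2] at h4
    omega
  · rw [union_sdiff_of_subset hT.1, hSU]

theorem card_small_le {I : Finset ι} {V : Finset α} {g : ι → Finset α} {p : ℝ} :
    ((gen I g).filter (fun U => 2 * U.card ≤ V.card)).card ≤
      ∑ T ∈ lists I V g p, 2 ^ (cand I g (p * V.card / 4) T).card := by
  calc ((gen I g).filter (fun U => 2 * U.card ≤ V.card)).card
      ≤ ((lists I V g p).biUnion (fun T =>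
          ((cand I g (p * V.card / 4) T).powerset).image (fun R => (T ∪ R).biUnion g))).card := by
        apply card_le_card
        intro U hU
        rw [mem_filter] at hU
        obtain ⟨T, hT, R, hR, h⟩ := encode (p := p) hU.1 hU.2
        rw [mem_biUnion]
        exact ⟨T, hT, mem_image.mpr ⟨R, hR, h⟩⟩
    _ ≤ ∑ T ∈ lists I V g p,
          (((cand I g (p * V.card / 4) T).powerset).image (fun R => (T ∪ R).biUnion g)).card :=
        card_biUnion_le
    _ ≤ _ := by
        apply sum_le_sum
        intro T _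
        exact card_image_le.trans_eq (card_powerset _)

/-- number of small members -/
theorem small_bound {I : Finset ι} {V : Finset α} {g : ι → Finset α} {p b : ℝ} (hp : 0 < p)
    (h : LowDisc I V g p b) (hVne : V.Nonempty)
    (hD : 1 ≤ p * I.card) :
    (((gen I g).filter (fun U => 2 * U.card ≤ V.card)).card : ℝ) ≤
      Real.exp (2 / p * Real.log (p * I.card) + 1 / p + 0.7 * (8 * b ^ 2 / (p ^ 2 * V.card))) := by
  have hn : (0 : ℝ) < V.card := by exact_mod_cast hVne.card_pos
  have h1 : (((gen I g).filter (fun U => 2 * U.card ≤ V.card)).card : ℝ) ≤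
      ∑ T ∈ lists I V g p, (2 : ℝ) ^ (cand I g (p * V.card / 4) T).card := by
    exact_mod_cast card_small_le (I := I) (V := V) (g := g) (p := p)
  refine h1.trans ?_
  have hDpos : 0 < p * (I.card : ℝ) := by linarith
  obtain ⟨Λ, hΛ⟩ : ∃ Λ : ℝ, Λ = Real.log (p * I.card) := ⟨_, rfl⟩
  have hΛ0 : 0 ≤ Λ := by rw [hΛ]; exact Real.log_nonneg hD
  have hexp : Real.exp Λ = p * I.card := by rw [hΛ]; exact Real.exp_log hDpos
  -- each term
  have h2 : ∀ T ∈ lists I V g p, (2 : ℝ) ^ (cand I g (p * V.card / 4) T).card ≤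
      Real.exp (0.7 * (8 * b ^ 2 / (p ^ 2 * V.card))) * 
        (Real.exp (2 / p * Λ) * Real.exp (-Λ) ^ T.card) := by
    intro T hT
    rw [lists, mem_filter, mem_powerset] at hT
    obtain ⟨hTI, hT1, hT2⟩ := hT
    have h3 := cand_card hp h hT2
    have h4 : ((cand I g (p * V.card / 4) T).card : ℝ) ≤ 8 * b ^ 2 / (p ^ 2 * V.card) := by
      rw [le_div_iff₀ (by positivity)]
      linarith
    have h5 : (2 : ℝ) ^ (cand I g (p * V.card / 4) T).card ≤
        Real.exp (0.7 * (8 * b ^ 2 / (p ^ 2 * V.card))) := by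
      have h6 : (2 : ℝ) ≤ Real.exp 0.7 := by
        have := Real.log_two_lt_d9
        have h7 : Real.log 2 ≤ 0.7 := by linarith
        calc (2 : ℝ) = Real.exp (Real.log 2) := (Real.exp_log (by norm_num)).symm
          _ ≤ _ := Real.exp_le_exp.mpr h7
      calc (2 : ℝ) ^ (cand I g (p * V.card / 4) T).card
          ≤ Real.exp 0.7 ^ (cand I g (p * V.card / 4) T).card :=
            pow_le_pow_left₀ (by norm_num) h6 _
        _ = Real.exp (((cand I g (p * V.card / 4) T).card : ℝ) * 0.7) := by
            rw [← Real.exp_nat_mul]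
        _ ≤ _ := by
            apply Real.exp_le_exp.mpr
            nlinarith
    have h8 : (T.card : ℝ) ≤ 2 / p := by
      rw [le_div_iff₀ hp]
      have h9 : ((T.biUnion g).card : ℝ) ≤ V.card / 2 := by
        have : (2 : ℝ) * (T.biUnion g).card ≤ V.card := by exact_mod_cast hT2
        linarith
      have h10 : (T.card : ℝ) * (p * V.card / 4) ≤ V.card / 2 := hT1.trans h9
      by_contra hcon
      push Not at hcon
      nlinarith
    have h11 : 1 ≤ Real.exp (2 / p * Λ) * Real.exp (-Λ) ^ T.card := by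
      rw [← Real.exp_nat_mul, ← Real.exp_add]
      rw [← Real.exp_zero]
      apply Real.exp_le_exp.mpr
      nlinarith
    calc (2 : ℝ) ^ (cand I g (p * V.card / 4) T).card
        ≤ Real.exp (0.7 * (8 * b ^ 2 / (p ^ 2 * V.card))) * 1 := by rw [mul_one]; exact h5
      _ ≤ _ := mul_le_mul_of_nonneg_left h11 (Real.exp_pos _).le
  have h12 : ∑ T ∈ lists I V g p, Real.exp (-Λ) ^ T.card ≤ Real.exp (1 / p) := by
    calc ∑ T ∈ lists I V g p, Real.exp (-Λ) ^ T.card
        ≤ ∑ T ∈ I.powerset, Real.exp (-Λ) ^ T.card := by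
          apply sum_le_sum_of_subset_of_nonneg (filter_subset _ _)
          intro T _ _
          positivity
      _ = (Real.exp (-Λ) + 1) ^ I.card := by
          have := Finset.sum_pow_mul_eq_add_pow (Real.exp (-Λ)) 1 I
          simpa using this
      _ ≤ Real.exp (Real.exp (-Λ)) ^ I.card := by
          apply pow_le_pow_left₀ (by positivity)
          exact Real.add_one_le_exp _
      _ = Real.exp (I.card * Real.exp (-Λ)) := by rw [← Real.exp_nat_mul]
      _ ≤ Real.exp (1 / p) := by
          apply Real.exp_le_exp.mpr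
          rw [Real.exp_neg, hexp]
          apply le_of_eq
          have : (I.card : ℝ) ≠ 0 := by
            intro h0
            rw [h0] at hDpos
            simp at hDpos
          field_simp
  calc ∑ T ∈ lists I V g p, (2 : ℝ) ^ (cand I g (p * V.card / 4) T).card
      ≤ ∑ T ∈ lists I V g p, Real.exp (0.7 * (8 * b ^ 2 / (p ^ 2 * V.card))) * 
        (Real.exp (2 / p * Λ) * Real.exp (-Λ) ^ T.card) := sum_le_sum h2
    _ = Real.exp (0.7 * (8 * b ^ 2 / (p ^ 2 * V.card))) * (Real.exp (2 / p * Λ) * 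
        ∑ T ∈ lists I V g p, Real.exp (-Λ) ^ T.card) := by
          rw [mul_sum, mul_sum]
    _ ≤ Real.exp (0.7 * (8 * b ^ 2 / (p ^ 2 * V.card))) * (Real.exp (2 / p * Λ) * 
        Real.exp (1 / p)) := by gcongr
    _ = _ := by
        rw [← Real.exp_add, ← Real.exp_add, hΛ]
        congr 1
        ring


/-- the generators avoiding a list of points -/
def avoid (I : Finset ι) (g : ι → Finset α) {c : ℕ} (f : Fin c → α) : Finset ι :=
  I.filter (fun i => ∀ j, f j ∉ g i)

/-- the members given by lists of points -/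
theorem large_bound {I : Finset ι} {V : Finset α} {g : ι → Finset α} {p b ε w : ℝ} (hp : 0 < p)
    (h : LowDisc I V g p b) (hV : ∀ i ∈ I, g i ⊆ V) (hVne : V.Nonempty) (hI : I.Nonempty)
    (hdens : ((∑ i ∈ I, (g i).card : ℕ) : ℝ) ≤ p * I.card * V.card) (hp2 : p ≤ 1 / 2)
    (c : ℕ) (hε : ε = (1 - 3 / 2 * p) ^ c / 6) (hw : w = b ^ 2 / (p ^ 2 * (ε * I.card)))
    (hw0 : 0 < w) :
    ε * (V.card / w) ^ c ≤
      (((gen I g).filter (fun U => (V.card : ℝ) - w ≤ U.card)).card : ℝ) := by
  have hn : (0 : ℝ) < V.card := by exact_mod_cast hVne.card_pos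
  have hN : (0 : ℝ) < I.card := by exact_mod_cast hI.card_pos
  have hε0 : 0 < ε := by
    rw [hε]
    have : 0 < 1 - 3 / 2 * p := by linarith
    positivity
  obtain ⟨P, hP⟩ : ∃ P, P = Fintype.piFinset (fun _ : Fin c => V) := ⟨_, rfl⟩
  have hPc : (P.card : ℝ) = (V.card : ℝ) ^ c := by
    rw [hP, Fintype.card_piFinset_const]; push_cast; rfl
  -- good generators
  obtain ⟨I', hI'⟩ : ∃ I', I' = I.filter (fun i => ((g i).card : ℝ) ≤ 3 / 2 * p * V.card) :=
    ⟨_, rfl⟩
  have hI'c : (I.card : ℝ) / 3 ≤ I'.card := by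
    have h1 : (((I.filter (fun i => ¬ ((g i).card : ℝ) ≤ 3 / 2 * p * V.card)).card : ℕ) : ℝ) *
        (3 / 2 * p * V.card) ≤ p * I.card * V.card := by
      refine le_trans ?_ hdens
      rw [← nsmul_eq_mul, Nat.cast_sum]
      refine le_trans (card_nsmul_le_sum _ (fun i => ((g i).card : ℝ)) _ ?_) ?_
      · intro i hi
        rw [mem_filter, not_le] at hi
        exact hi.2.le
      · apply sum_le_sum_of_subset_of_nonneg (filter_subset _ _)
        intro i _ _
        positivity
    have h2 : (I'.card : ℝ) +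
        ((I.filter (fun i => ¬ ((g i).card : ℝ) ≤ 3 / 2 * p * V.card)).card : ℕ) = I.card := by
      rw [hI']
      exact_mod_cast card_filter_add_card_filter_not (s := I) _
    have h3 : 0 < p * V.card := by positivity
    have h4 : (p * V.card) * ((((I.filter (fun i => ¬ ((g i).card : ℝ) ≤
        3 / 2 * p * V.card)).card : ℕ) : ℝ) * (3 / 2)) ≤ (p * V.card) * I.card := by linarith
    have h5 := le_of_mul_le_mul_left h4 h3
    linarith
  -- double counting
  have hdc : (I.card : ℝ) / 3 * ((1 - 3 / 2 * p) ^ c * (V.card : ℝ) ^ c) ≤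
      ∑ f ∈ P, ((avoid I g f).card : ℝ) := by
    have h1 : ∑ f ∈ P, ((avoid I g f).card : ℝ) =
        ∑ i ∈ I, ((P.filter (fun f => ∀ j, f j ∉ g i)).card : ℝ) := by
      simp only [avoid, card_filter]
      push_cast
      rw [sum_comm]
    rw [h1]
    calc (I.card : ℝ) / 3 * ((1 - 3 / 2 * p) ^ c * (V.card : ℝ) ^ c)
        ≤ I'.card * ((1 - 3 / 2 * p) ^ c * (V.card : ℝ) ^ c) := by
          apply mul_le_mul_of_nonneg_right hI'c
          have : 0 < 1 - 3 / 2 * p := by linarith
          positivity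
      _ ≤ ∑ i ∈ I', ((P.filter (fun f => ∀ j, f j ∉ g i)).card : ℝ) := by
          rw [← nsmul_eq_mul]
          apply card_nsmul_le_sum
          intro i hi
          rw [hI', mem_filter] at hi
          have h2 : P.filter (fun f => ∀ j, f j ∉ g i) =
              Fintype.piFinset (fun _ : Fin c => V \ g i) := by
            ext f
            simp only [hP, mem_filter, Fintype.mem_piFinset, mem_sdiff]
            exact ⟨fun hh j => ⟨hh.1 j, hh.2 j⟩, fun hh => ⟨fun j => (hh j).1, fun j => (hh j).2⟩⟩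
          rw [h2, Fintype.card_piFinset_const, ← mul_pow]
          push_cast
          apply pow_le_pow_left₀
          · have : 0 < 1 - 3 / 2 * p := by linarith
            positivity
          · rw [cast_card_sdiff (hV i hi.1)]
            linarith [hi.2]
      _ ≤ _ := by
          apply sum_le_sum_of_subset_of_nonneg
          · rw [hI']; exact filter_subset _ _
          · intro i _ _
            positivity
  -- good lists
  obtain ⟨Q, hQ⟩ : ∃ Q, Q = P.filter (fun f => ε * I.card ≤ ((avoid I g f).card : ℝ)) := ⟨_, rfl⟩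
  have hQc : ε * (V.card : ℝ) ^ c ≤ Q.card := by
    have h1 : ∑ f ∈ P, ((avoid I g f).card : ℝ) ≤ Q.card * I.card + P.card * (ε * I.card) := by
      rw [← sum_filter_add_sum_filter_not P (fun f => ε * I.card ≤ ((avoid I g f).card : ℝ)), ← hQ]
      apply add_le_add
      · rw [← nsmul_eq_mul]
        apply sum_le_card_nsmul
        intro f _
        exact_mod_cast card_le_card (filter_subset _ _)
      · calc ∑ f ∈ P.filter (fun f => ¬ ε * I.card ≤ ((avoid I g f).card : ℝ)),
              ((avoid I g f).card : ℝ)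
            ≤ ((P.filter (fun f => ¬ ε * I.card ≤ ((avoid I g f).card : ℝ))).card : ℝ) *
              (ε * I.card) := by
              rw [← nsmul_eq_mul]
              apply sum_le_card_nsmul
              intro f hf
              rw [mem_filter, not_le] at hf
              exact hf.2.le
          _ ≤ P.card * (ε * I.card) := by
              apply mul_le_mul_of_nonneg_right
              · exact_mod_cast card_le_card (filter_subset _ _)
              · positivity
    rw [hPc] at h1
    have h2 : (1 - 3 / 2 * p) ^ c = 6 * ε := by rw [hε]; ring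
    rw [h2] at hdc
    have h3 : (I.card : ℝ) * (ε * (V.card : ℝ) ^ c) ≤ I.card * Q.card := by nlinarith
    exact le_of_mul_le_mul_left h3 hN
  -- each good list gives a large member
  have hmap : ∀ f ∈ Q, (avoid I g f).biUnion g ∈
      (gen I g).filter (fun U => (V.card : ℝ) - w ≤ U.card) ∧
      ((V \ (avoid I g f).biUnion g).card : ℝ) ≤ w := by
    intro f hf
    rw [hQ, mem_filter] at hf
    have h1 : ((V \ (avoid I g f).biUnion g).card : ℝ) ≤ w := by
      have h2 := no_inc hp h (S := avoid I g f) (filter_subset _ _)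
        (W := V \ (avoid I g f).biUnion g) sdiff_subset (by
          intro i hi x hx hxg
          rw [mem_sdiff] at hx
          exact hx.2 (mem_biUnion.mpr ⟨i, hi, hxg⟩))
      rw [hw, le_div_iff₀ (by positivity)]
      refine le_trans ?_ h2
      have h3 : (0 : ℝ) ≤ ((V \ (avoid I g f).biUnion g).card : ℝ) := by positivity
      calc ((V \ (avoid I g f).biUnion g).card : ℝ) * (p ^ 2 * (ε * I.card))
          ≤ ((V \ (avoid I g f).biUnion g).card : ℝ) * (p ^ 2 * (avoid I g f).card) := by
            apply mul_le_mul_of_nonneg_left _ h3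
            apply mul_le_mul_of_nonneg_left hf.2
            positivity
        _ = _ := by ring
    refine ⟨?_, h1⟩
    rw [mem_filter, mem_gen]
    refine ⟨⟨avoid I g f, filter_subset _ _, rfl⟩, ?_⟩
    rw [cast_card_sdiff] at h1
    · linarith
    · intro x hx
      rw [mem_biUnion] at hx
      obtain ⟨i, hi, hx⟩ := hx
      exact hV i (mem_of_mem_filter i hi) hx
  have hfib : (Q.card : ℝ) ≤
      (((gen I g).filter (fun U => (V.card : ℝ) - w ≤ U.card)).card : ℝ) * w ^ c := by
    have h1 : Q.card = ∑ U ∈ (gen I g).filter (fun U => (V.card : ℝ) - w ≤ U.card),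
        (Q.filter (fun f => (avoid I g f).biUnion g = U)).card :=
      card_eq_sum_card_fiberwise (fun f hf => (hmap f hf).1)
    rw [h1]
    push_cast
    rw [← nsmul_eq_mul]
    apply sum_le_card_nsmul
    intro U _
    rcases (Q.filter (fun f => (avoid I g f).biUnion g = U)).eq_empty_or_nonempty with h2 | h2
    · rw [h2]; simp; positivity
    · obtain ⟨f0, hf0⟩ := h2
      rw [mem_filter] at hf0
      have h3 : ((V \ U).card : ℝ) ≤ w := by rw [← hf0.2]; exact (hmap f0 hf0.1).2
      have h4 : Q.filter (fun f => (avoid I g f).biUnion g = U) ⊆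
          Fintype.piFinset (fun _ : Fin c => V \ U) := by
        intro f hf
        rw [mem_filter] at hf
        rw [Fintype.mem_piFinset]
        intro j
        rw [mem_sdiff]
        refine ⟨?_, ?_⟩
        · have := hf.1
          rw [hQ, mem_filter, hP, Fintype.mem_piFinset] at this
          exact this.1 j
        · rw [← hf.2, mem_biUnion]
          rintro ⟨i, hi, hx⟩
          rw [avoid, mem_filter] at hi
          exact hi.2 j hx
      calc ((Q.filter (fun f => (avoid I g f).biUnion g = U)).card : ℝ)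
          ≤ ((Fintype.piFinset (fun _ : Fin c => V \ U)).card : ℝ) := by
            exact_mod_cast card_le_card h4
        _ = ((V \ U).card : ℝ) ^ c := by rw [Fintype.card_piFinset_const]; push_cast; rfl
        _ ≤ w ^ c := pow_le_pow_left₀ (by positivity) h3 c
  have hwc : 0 < w ^ c := by positivity
  rw [div_pow, ← mul_div_assoc, div_le_iff₀ hwc]
  linarith

end Pool.Agent.U475.PR
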