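import Mathlib
import Pool.Agent.U475.PR

set_option autoImplicit false
set_option linter.unusedSectionVars false

/-!
# Union-closed families generated by pseudorandom systems of sets: assembly
-/

namespace Pool.Agent.U475.PR

open Finset

variable {ι α : Type*} [DecidableEq ι] [DecidableEq α]

theorem exp_lower {p : ℝ} (hp : 0 < p) (hp2 : p ≤ 1 / 2) :
    Real.exp (-(3 * p)) ≤ 1 - 3 / 2 * p := by
  have h1 := Real.sum_le_exp_of_nonneg (x := 3 * p) (by positivity) 4
  simp only [sum_range_succ, sum_range_zero, pow_zero, Nat.factorial] at h1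
  norm_num at h1
  have h2 : 0 < 1 - 3 / 2 * p := by linarith
  rw [Real.exp_neg]
  rw [inv_le_comm₀ (Real.exp_pos _) h2]
  refine le_trans ?_ h1
  rw [inv_le_iff_one_le_mul₀ h2]
  have h3 : 0 ≤ p * (1 / 2 - p) := by
    apply mul_nonneg hp.le; linarith
  have h4 : 0 ≤ p ^ 2 * (1 / 2 - p) := by
    apply mul_nonneg (by positivity); linarith
  have h5 : 0 ≤ p ^ 3 * (1 / 2 - p) := by
    apply mul_nonneg (by positivity); linarith
  nlinarith

theorem exp_sq {x : ℝ} (hx : 15 / 2 ≤ x) : 24 * x ^ 2 ≤ Real.exp x := by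
  have h1 : (1700 : ℝ) ≤ Real.exp (15 / 2) := by
    have h2 : Real.exp (15 / 2) = Real.exp 1 ^ 7 * Real.exp (1 / 2) := by
      rw [← Real.exp_nat_mul, ← Real.exp_add]; norm_num
    have h3 := Real.exp_one_gt_d9
    have h4 : (271 / 100 : ℝ) ^ 7 ≤ Real.exp 1 ^ 7 := by
      apply pow_le_pow_left₀ (by norm_num); linarith
    have h5 : (13 / 8 : ℝ) ≤ Real.exp (1 / 2) := by
      have := Real.quadratic_le_exp_of_nonneg (x := 1 / 2) (by norm_num)
      norm_num at this ⊢
      linarith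
    have h6 : (1 : ℝ) ≤ Real.exp 1 ^ 7 := by
      apply one_le_pow₀; linarith
    rw [h2]
    calc (1700 : ℝ) ≤ (271 / 100 : ℝ) ^ 7 * (13 / 8) := by norm_num
      _ ≤ _ := by gcongr
  obtain ⟨y, hy⟩ : ∃ y : ℝ, y = x - 15 / 2 := ⟨_, rfl⟩
  have hy0 : 0 ≤ y := by linarith
  have hx2 : x = 15 / 2 + y := by linarith
  rw [hx2, Real.exp_add]
  have h7 := Real.quadratic_le_exp_of_nonneg hy0
  calc 24 * (15 / 2 + y) ^ 2 ≤ 1700 * (1 + y + y ^ 2 / 2) := by nlinarith
    _ ≤ Real.exp (15 / 2) * Real.exp y := by gcongr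

theorem average {I : Finset ι} {V : Finset α} {g : ι → Finset α} {p β : ℝ} (hp : 0 < p)
    (hp2 : p ≤ 1 / 2) (hV : ∀ i ∈ I, g i ⊆ V) (hVne : V.Nonempty)
    (hD : Real.exp 150 ≤ p * I.card)
    (hβ : β ^ 2 ≤ p * V.card * Real.log (p * I.card) ^ 2 / 100)
    (hdens : ((∑ i ∈ I, (g i).card : ℕ) : ℝ) ≤ p * I.card * V.card)
    (h0 : LowDisc I V g p β) :
    (V.card : ℝ) * (gen I g).card < 2 * ∑ U ∈ gen I g, (U.card : ℝ) := by
  have hn : (0 : ℝ) < V.card := by exact_mod_cast hVne.card_pos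
  have hDpos : 0 < p * (I.card : ℝ) := (Real.exp_pos _).trans_le hD
  have hN : (0 : ℝ) < I.card := by
    by_contra hcon
    push Not at hcon
    nlinarith
  have hIne : I.Nonempty := by
    rw [← card_pos]; exact_mod_cast hN
  obtain ⟨Λ, hΛ⟩ : ∃ Λ : ℝ, Λ = Real.log (p * I.card) := ⟨_, rfl⟩
  rw [← hΛ] at hβ
  have hexp : Real.exp Λ = p * I.card := by rw [hΛ]; exact Real.exp_log hDpos
  have hΛ1 : 150 ≤ Λ := by
    rw [hΛ, Real.le_log_iff_exp_le hDpos]; exact hD
  obtain ⟨b, hb⟩ : ∃ b : ℝ, b = √(p * V.card * Λ ^ 2 / 100) := ⟨_, rfl⟩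
  have hb2 : b ^ 2 = p * V.card * Λ ^ 2 / 100 := by
    rw [hb]; exact Real.sq_sqrt (by positivity)
  have hb0 : 0 < b := by rw [hb]; apply Real.sqrt_pos.mpr; positivity
  have hβb : β ≤ b := by
    apply le_of_sq_le_sq _ hb0.le
    rw [hb2]; exact hβ
  have h : LowDisc I V g p b := h0.mono hβb
  obtain ⟨c, hc⟩ : ∃ c : ℕ, c = ⌊Λ / (6 * p)⌋₊ := ⟨_, rfl⟩
  have hc1 : (c : ℝ) ≤ Λ / (6 * p) := by rw [hc]; exact Nat.floor_le (by positivity)
  have hc2 : Λ / (6 * p) - 1 ≤ c := by
    rw [hc]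
    have := Nat.lt_floor_add_one (Λ / (6 * p))
    linarith
  have hpc : 3 * p * c ≤ Λ / 2 := by
    rw [le_div_iff₀ (by positivity)] at hc1
    linarith
  obtain ⟨ε, hε⟩ : ∃ ε : ℝ, ε = (1 - 3 / 2 * p) ^ c / 6 := ⟨_, rfl⟩
  have hε1 : Real.exp (-(Λ / 2)) / 6 ≤ ε := by
    rw [hε]
    have h1 : Real.exp (-(3 * p)) ^ c ≤ (1 - 3 / 2 * p) ^ c :=
      pow_le_pow_left₀ (Real.exp_pos _).le (exp_lower hp hp2) c
    rw [← Real.exp_nat_mul] at h1
    have h2 : Real.exp (-(Λ / 2)) ≤ Real.exp (c * -(3 * p)) := by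
      apply Real.exp_le_exp.mpr; linarith
    linarith
  have hε0 : 0 < ε := lt_of_lt_of_le (by positivity) hε1
  obtain ⟨w, hw⟩ : ∃ w : ℝ, w = b ^ 2 / (p ^ 2 * (ε * I.card)) := ⟨_, rfl⟩
  have hw0 : 0 < w := by rw [hw]; positivity
  have hL := large_bound hp h hV hVne hIne hdens hp2 c hε hw hw0
  have hS := small_bound hp h hVne (by
    have : (1 : ℝ) ≤ Real.exp 150 := Real.one_le_exp (by norm_num)
    linarith)
  rw [← hΛ] at hS
  -- n / w
  have hnw : Real.exp (0.45 * Λ) ≤ V.card / w := by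
    have h1 : (V.card : ℝ) / w = 100 * ε * Real.exp Λ / Λ ^ 2 := by
      rw [hw, hb2, hexp]
      have : Λ ≠ 0 := by linarith
      field_simp
    rw [h1]
    have h2 : Real.exp (0.45 * Λ) * Λ ^ 2 ≤ 100 / 6 * Real.exp (Λ / 2) := by
      have h3 := exp_sq (x := Λ / 20) (by linarith)
      have h4 : Real.exp (Λ / 2) = Real.exp (0.45 * Λ) * Real.exp (Λ / 20) := by
        rw [← Real.exp_add]; congr 1; ring
      rw [h4]
      have h5 : Λ ^ 2 ≤ 100 / 6 * Real.exp (Λ / 20) := by linarith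
      have h6 := mul_le_mul_of_nonneg_left h5 (Real.exp_pos (0.45 * Λ)).le
      linarith
    rw [le_div_iff₀ (by positivity)]
    refine h2.trans ?_
    have h7 : Real.exp (Λ / 2) = Real.exp (-(Λ / 2)) * Real.exp Λ := by
      rw [← Real.exp_add]; congr 1; ring
    rw [h7]
    have h8 := mul_le_mul_of_nonneg_right hε1 (Real.exp_pos Λ).le
    linarith
  have hw4 : 4 * w ≤ V.card := by
    have h1 : (4 : ℝ) ≤ V.card / w := by
      refine le_trans ?_ hnw
      have := Real.add_one_le_exp (0.45 * Λ)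
      linarith
    rwa [le_div_iff₀ hw0] at h1
  -- lower bound for the number of large members
  have hL2 : Real.exp (-(Λ / 2) + 0.45 * Λ * c) / 6 ≤
      (((gen I g).filter (fun U => (V.card : ℝ) - w ≤ U.card)).card : ℝ) := by
    refine le_trans ?_ hL
    rw [Real.exp_add]
    have h1 : Real.exp (0.45 * Λ * c) ≤ (V.card / w) ^ c := by
      calc Real.exp (0.45 * Λ * c) = Real.exp (0.45 * Λ) ^ c := by
            rw [← Real.exp_nat_mul]; congr 1; ring
        _ ≤ _ := pow_le_pow_left₀ (Real.exp_pos _).le hnw c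
    calc Real.exp (-(Λ / 2)) * Real.exp (0.45 * Λ * c) / 6
        = (Real.exp (-(Λ / 2)) / 6) * Real.exp (0.45 * Λ * c) := by ring
      _ ≤ ε * (V.card / w) ^ c := by gcongr
  have hS2 : (((gen I g).filter (fun U => 2 * U.card ≤ V.card)).card : ℝ) ≤
      Real.exp ((2 * Λ + 1 + 0.056 * Λ ^ 2) / p) := by
    refine hS.trans ?_
    apply Real.exp_le_exp.mpr
    apply le_of_eq
    rw [hb2]
    field_simp
    ring
  have hcmp : 2 * (((gen I g).filter (fun U => 2 * U.card ≤ V.card)).card : ℝ) <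
      (((gen I g).filter (fun U => (V.card : ℝ) - w ≤ U.card)).card : ℝ) := by
    have h1 : 12 * Real.exp ((2 * Λ + 1 + 0.056 * Λ ^ 2) / p) <
        Real.exp (-(Λ / 2) + 0.45 * Λ * c) := by
      have h2 : (12 : ℝ) ≤ Real.exp 3 := by
        have h3 := Real.exp_one_gt_d9
        have h4 : Real.exp 3 = Real.exp 1 ^ 3 := by rw [← Real.exp_nat_mul]; norm_num
        rw [h4]
        calc (12 : ℝ) ≤ 2.7 ^ 3 := by norm_num
          _ ≤ _ := by apply pow_le_pow_left₀ (by norm_num); linarith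
      calc 12 * Real.exp ((2 * Λ + 1 + 0.056 * Λ ^ 2) / p)
          ≤ Real.exp 3 * Real.exp ((2 * Λ + 1 + 0.056 * Λ ^ 2) / p) := by gcongr
        _ = Real.exp (3 + (2 * Λ + 1 + 0.056 * Λ ^ 2) / p) := by rw [Real.exp_add]
        _ < _ := by
            apply Real.exp_lt_exp.mpr
            have h5 : 0.45 * Λ * (Λ / (6 * p) - 1) ≤ 0.45 * Λ * c :=
              mul_le_mul_of_nonneg_left hc2 (by positivity)
            have h6 : 3 + (2 * Λ + 1 + 0.056 * Λ ^ 2) / p <
                -(Λ / 2) + 0.45 * Λ * (Λ / (6 * p) - 1) := by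
              have h7 : 0.45 * Λ * (Λ / (6 * p) - 1) = (0.075 * Λ ^ 2) / p - 0.45 * Λ := by
                field_simp
                ring
              rw [h7]
              have h8 : (0.075 * Λ ^ 2) / p - (2 * Λ + 1 + 0.056 * Λ ^ 2) / p =
                  (0.019 * Λ ^ 2 - 2 * Λ - 1) / p := by
                rw [← sub_div]; congr 1; ring
              have h9 : 3 + 0.95 * Λ < (0.019 * Λ ^ 2 - 2 * Λ - 1) / p := by
                rw [lt_div_iff₀ hp]
                have h10 : (3 + 0.95 * Λ) * p ≤ (3 + 0.95 * Λ) * (1 / 2) := by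
                  apply mul_le_mul_of_nonneg_left hp2; linarith
                nlinarith
              linarith
            linarith
    linarith
  -- summation
  have hpt : ∀ U ∈ gen I g, (V.card : ℝ) / 2 * (if (V.card : ℝ) - w ≤ U.card then 1 else 0) -
      V.card * (if 2 * U.card ≤ V.card then 1 else 0) ≤ 2 * (U.card : ℝ) - V.card := by
    intro U _
    by_cases h1 : (V.card : ℝ) - w ≤ U.card
    · by_cases h2 : 2 * U.card ≤ V.card
      · have h3 : (2 : ℝ) * U.card ≤ V.card := by exact_mod_cast h2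
        linarith
      · rw [if_pos h1, if_neg h2]
        linarith
    · by_cases h2 : 2 * U.card ≤ V.card
      · rw [if_neg h1, if_pos h2]
        have : (0 : ℝ) ≤ U.card := by positivity
        linarith
      · rw [if_neg h1, if_neg h2]
        have h3 : (V.card : ℝ) ≤ 2 * U.card := by
          push Not at h2
          exact_mod_cast h2.le
        linarith
  have hsum := sum_le_sum hpt
  rw [sum_sub_distrib, sum_sub_distrib, ← mul_sum, ← mul_sum, ← mul_sum, sum_boole, sum_boole,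
    sum_const, nsmul_eq_mul] at hsum
  nlinarith

/-- Strict form: some element lies in more than half of the members. -/
theorem main {I : Finset ι} {V : Finset α} {g : ι → Finset α} {p β : ℝ} (hp : 0 < p)
    (hp2 : p ≤ 1 / 2) (hV : ∀ i ∈ I, g i ⊆ V) (hVne : V.Nonempty)
    (hD : Real.exp 150 ≤ p * I.card)
    (hβ : β ^ 2 ≤ p * V.card * Real.log (p * I.card) ^ 2 / 100)
    (hdens : ((∑ i ∈ I, (g i).card : ℕ) : ℝ) ≤ p * I.card * V.card)
    (h0 : LowDisc I V g p β) :
    ∃ x ∈ V, (gen I g).card < 2 * ((gen I g).filter (fun U => x ∈ U)).card := by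
  have h1 := average hp hp2 hV hVne hD hβ hdens h0
  by_contra hcon
  push Not at hcon
  have h2 : ∑ U ∈ gen I g, U.card = ∑ x ∈ V, ((gen I g).filter (fun U => x ∈ U)).card := by
    simp only [card_filter]
    rw [sum_comm]
    apply sum_congr rfl
    intro U hU
    rw [← card_filter]
    congr 1
    ext x
    rw [mem_filter]
    refine ⟨fun hx => ⟨?_, hx⟩, fun hx => hx.2⟩
    obtain ⟨S, hS, rfl⟩ := mem_gen.mp hU
    rw [mem_biUnion] at hx
    obtain ⟨i, hi, hx⟩ := hx
    exact hV i (hS hi) hx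
  have h3 : 2 * ∑ U ∈ gen I g, U.card ≤ V.card * (gen I g).card := by
    rw [h2, mul_sum]
    refine (sum_le_sum hcon).trans ?_
    rw [sum_const, smul_eq_mul]
  have h4 : (2 : ℝ) * ∑ U ∈ gen I g, (U.card : ℝ) ≤ V.card * (gen I g).card := by
    exact_mod_cast h3
  linarith

end Pool.Agent.U475.PR
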